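import Mathlib

set_option autoImplicit false

/-! # Residues of random integer vectors -/

namespace Pool.Agent.R526.CT

open Finset

open scoped Classical

variable {r : ℕ}

/-- the residues modulo `m` of the coordinates -/
def res (D m : ℕ) (a : Fin r → Fin D) : Fin r → ZMod m := fun i => ((a i : ℕ) : ZMod m)

theorem one_dim (D m : ℕ) (hm : 0 < m) (c : ZMod m) :
    (D : ℝ) / m - 1 ≤ ((univ.filter (fun t : Fin D => (((t : ℕ) : ZMod m)) = c)).card : ℝ) ∧
    ((univ.filter (fun t : Fin D => (((t : ℕ) : ZMod m)) = c)).card : ℝ) ≤ (D : ℝ) / m + 1 := by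
  haveI : NeZero m := ⟨hm.ne'⟩
  have h1 : (univ.filter (fun t : Fin D => (((t : ℕ) : ZMod m)) = c)).card =
      Nat.count (fun x => x ≡ c.val [MOD m]) D := by
    rw [Nat.count_eq_card_filter_range]
    refine card_bij (fun t _ => (t : ℕ)) ?_ ?_ ?_
    · intro t ht
      rw [mem_filter] at ht
      rw [mem_filter, mem_range]
      refine ⟨t.2, ?_⟩
      rw [← ZMod.natCast_eq_natCast_iff, ht.2, ZMod.natCast_zmod_val]
    · intro a _ b _ h
      exact Fin.ext h
    · intro b hb
      rw [mem_filter, mem_range] at hb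
      refine ⟨⟨b, hb.1⟩, ?_, rfl⟩
      rw [mem_filter]
      refine ⟨mem_univ _, ?_⟩
      have := (ZMod.natCast_eq_natCast_iff b c.val m).2 hb.2
      rw [ZMod.natCast_zmod_val] at this
      exact this
  rw [h1, Nat.count_modEq_card D hm]
  have hm0 : (0 : ℝ) < m := by exact_mod_cast hm
  have h2 : ((D / m : ℕ) : ℝ) ≤ (D : ℝ) / m := Nat.cast_div_le
  have h3 : (D : ℝ) / m < ((D / m : ℕ) : ℝ) + 1 := by
    rw [div_lt_iff₀ hm0]
    have h4 : D < (D / m + 1) * m := by
      have := Nat.lt_mul_div_succ D hm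
      rw [mul_comm] at this
      exact this
    exact_mod_cast h4
  push_cast
  constructor
  · have : (0 : ℝ) ≤ if c.val % m < D % m then 1 else 0 := by split_ifs <;> norm_num
    linarith
  · have : (if c.val % m < D % m then (1 : ℝ) else 0) ≤ 1 := by split_ifs <;> norm_num
    linarith

theorem r_dim (D m : ℕ) (hm : 0 < m) (hmD : m ≤ D) (c : Fin r → ZMod m) :
    ((D : ℝ) / m - 1) ^ r ≤ ((univ.filter (fun a : Fin r → Fin D => res D m a = c)).card : ℝ) ∧
    ((univ.filter (fun a : Fin r → Fin D => res D m a = c)).card : ℝ) ≤ ((D : ℝ) / m + 1) ^ r := by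
  have h1 : (univ.filter (fun a : Fin r → Fin D => res D m a = c)) =
      Fintype.piFinset (fun i => univ.filter (fun t : Fin D => (((t : ℕ) : ZMod m)) = c i)) := by
    ext a
    rw [mem_filter, Fintype.mem_piFinset]
    constructor
    · rintro ⟨-, h⟩ i
      rw [mem_filter]
      exact ⟨mem_univ _, congrFun h i⟩
    · intro h
      refine ⟨mem_univ _, ?_⟩
      funext i
      exact (mem_filter.1 (h i)).2
  rw [h1, Fintype.card_piFinset]
  push_cast
  have hm0 : (0 : ℝ) < m := by exact_mod_cast hm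
  have h0 : 0 ≤ (D : ℝ) / m - 1 := by
    rw [sub_nonneg, le_div_iff₀ hm0, one_mul]
    exact_mod_cast hmD
  constructor
  · calc ((D : ℝ) / m - 1) ^ r = ∏ _i : Fin r, ((D : ℝ) / m - 1) := by
          rw [prod_const, card_univ, Fintype.card_fin]
      _ ≤ _ := Finset.prod_le_prod (fun _ _ => h0) (fun i _ => (one_dim D m hm (c i)).1)
  · calc _ ≤ ∏ _i : Fin r, ((D : ℝ) / m + 1) :=
          Finset.prod_le_prod (fun _ _ => Nat.cast_nonneg _) (fun i _ => (one_dim D m hm (c i)).2)
      _ = ((D : ℝ) / m + 1) ^ r := by rw [prod_const, card_univ, Fintype.card_fin]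

theorem mem_dim (D m : ℕ) (hm : 0 < m) (hmD : m ≤ D) (C : Finset (Fin r → ZMod m)) :
    (C.card : ℝ) * ((D : ℝ) / m - 1) ^ r ≤
      ((univ.filter (fun a : Fin r → Fin D => res D m a ∈ C)).card : ℝ) ∧
    ((univ.filter (fun a : Fin r → Fin D => res D m a ∈ C)).card : ℝ) ≤
      (C.card : ℝ) * ((D : ℝ) / m + 1) ^ r := by
  have h1 : (univ.filter (fun a : Fin r → Fin D => res D m a ∈ C)).card =
      ∑ c ∈ C, (univ.filter (fun a : Fin r → Fin D => res D m a = c)).card := by
    rw [card_eq_sum_card_fiberwise (f := res D m) (t := C)]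
    · refine sum_congr rfl fun c hc => ?_
      congr 1
      rw [filter_filter]
      apply filter_congr
      intro a _
      constructor
      · exact fun h => h.2
      · intro h
        exact ⟨by rw [h]; exact hc, h⟩
    · intro a ha
      exact (mem_filter.1 ha).2
  rw [h1]
  push_cast
  constructor
  · rw [← nsmul_eq_mul, ← sum_const]
    exact sum_le_sum fun c _ => (r_dim D m hm hmD c).1
  · rw [← nsmul_eq_mul, ← sum_const]
    exact sum_le_sum fun c _ => (r_dim D m hm hmD c).2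

/-- the Chinese remainder theorem for vectors -/
theorem crt_card (T : Finset ℕ) (hT : ∀ p ∈ T, p.Prime) (B : (p : ℕ) → Finset (Fin r → ZMod p))
    [NeZero (∏ i : T, (i : ℕ))] :
    (((univ : Finset (Fin r → ZMod (∏ i : T, (i : ℕ)))).filter
      (fun c => ∀ p ∈ T, (fun i => (((c i).val : ℕ) : ZMod p)) ∉ B p)).card : ℝ) =
      ∏ p ∈ T, ((p : ℝ) ^ r - ((B p).card : ℝ)) := by
  haveI hne : ∀ p : T, NeZero (p : ℕ) := fun p => ⟨(hT p p.2).ne_zero⟩
  have hcop : Pairwise (Function.onFun Nat.Coprime (fun i : T => (i : ℕ))) := by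
    intro p q hpq
    exact (Nat.coprime_primes (hT p p.2) (hT q q.2)).2 fun h => hpq (Subtype.ext h)
  set E := ZMod.prodEquivPi (fun i : T => (i : ℕ)) hcop with hE
  let e : (Fin r → ZMod (∏ i : T, (i : ℕ))) ≃ ((p : T) → (Fin r → ZMod (p : ℕ))) :=
    { toFun := fun c p i => E (c i) p
      invFun := fun g i => E.symm (fun p => g p i)
      left_inv := fun c => by
        funext i
        exact E.symm_apply_apply (c i)
      right_inv := fun g => by
        funext p i
        exact congrFun (E.apply_symm_apply (fun p => g p i)) p }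
  have hcast : ∀ (x : ZMod (∏ i : T, (i : ℕ))) (p : T), E x p = ((x.val : ℕ) : ZMod (p : ℕ)) := by
    intro x p
    have h1 : x = ((x.val : ℕ) : ZMod (∏ i : T, (i : ℕ))) := (ZMod.natCast_zmod_val x).symm
    conv_lhs => rw [h1]
    rw [map_natCast]
    rfl
  have h1 : ((univ : Finset (Fin r → ZMod (∏ i : T, (i : ℕ)))).filter
      (fun c => ∀ p ∈ T, (fun i => (((c i).val : ℕ) : ZMod p)) ∉ B p)).card =
      (Fintype.piFinset (fun p : T => (B (p : ℕ))ᶜ)).card := by
    refine card_equiv e ?_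
    intro c
    rw [mem_filter, Fintype.mem_piFinset]
    constructor
    · rintro ⟨-, h⟩ p
      rw [mem_compl]
      have h2 := h p p.2
      have h3 : e c p = fun i => (((c i).val : ℕ) : ZMod (p : ℕ)) := by
        funext i
        exact hcast (c i) p
      rw [h3]
      exact h2
    · intro h
      refine ⟨mem_univ _, fun p hp => ?_⟩
      have h2 := h ⟨p, hp⟩
      rw [mem_compl] at h2
      have h3 : e c ⟨p, hp⟩ = fun i => (((c i).val : ℕ) : ZMod p) := by
        funext i
        exact hcast (c i) ⟨p, hp⟩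
      rw [h3] at h2
      exact h2
  rw [h1, Fintype.card_piFinset]
  push_cast
  rw [← prod_coe_sort T (fun p => (p : ℝ) ^ r - ((B p).card : ℝ))]
  refine prod_congr rfl fun p _ => ?_
  rw [card_compl, Nat.cast_sub (card_le_univ _), Fintype.card_fun, ZMod.card, Fintype.card_fin]
  push_cast
  rfl

/-- proportion of the vectors with a property -/
noncomputable def Pr (D : ℕ) (s : (Fin r → Fin D) → Prop) : ℝ :=
  ((univ.filter s).card : ℝ) / (D : ℝ) ^ r

/-- all primes of `T` are removed -/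
def Del (B : (p : ℕ) → Finset (Fin r → ZMod p)) (D : ℕ) (T : Finset ℕ) (a : Fin r → Fin D) : Prop :=
  ∀ p ∈ T, res D p a ∉ B p

/-- the local factor -/
noncomputable def bet (B : (p : ℕ) → Finset (Fin r → ZMod p)) (T : Finset ℕ) : ℝ :=
  ∏ p ∈ T, (1 - ((B p).card : ℝ) / (p : ℝ) ^ r)

theorem bet_nonneg (B : (p : ℕ) → Finset (Fin r → ZMod p)) (T : Finset ℕ)
    (hT : ∀ p ∈ T, p.Prime) : 0 ≤ bet B T := by
  apply prod_nonneg
  intro p hp
  haveI : NeZero p := ⟨(hT p hp).ne_zero⟩
  have h1 : ((B p).card : ℝ) ≤ (p : ℝ) ^ r := by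
    have h2 := card_le_univ (B p)
    rw [Fintype.card_fun, ZMod.card, Fintype.card_fin] at h2
    exact_mod_cast h2
  have hp0 : (0 : ℝ) < p := by exact_mod_cast (hT p hp).pos
  rw [sub_nonneg, div_le_one (by positivity)]
  exact h1

theorem del_bounds (B : (p : ℕ) → Finset (Fin r → ZMod p)) (T : Finset ℕ)
    (hT : ∀ p ∈ T, p.Prime) (D : ℕ) (hD : ∏ p ∈ T, p ≤ D) :
    bet B T * (1 - ((∏ p ∈ T, p : ℕ) : ℝ) / D) ^ r ≤ Pr D (Del B D T) ∧
    Pr D (Del B D T) ≤ bet B T * (1 + ((∏ p ∈ T, p : ℕ) : ℝ) / D) ^ r := by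
  have hm1 : (∏ i : T, (i : ℕ)) = ∏ p ∈ T, p := prod_coe_sort T (fun p => p)
  have hm0 : 0 < ∏ p ∈ T, p := prod_pos fun p hp => (hT p hp).pos
  have hm0' : 0 < ∏ i : T, (i : ℕ) := by rw [hm1]; exact hm0
  haveI : NeZero (∏ i : T, (i : ℕ)) := ⟨hm0'.ne'⟩
  have hcard := crt_card (r := r) T hT B
  set C := ((univ : Finset (Fin r → ZMod (∏ i : T, (i : ℕ)))).filter
      (fun c => ∀ p ∈ T, (fun i => (((c i).val : ℕ) : ZMod p)) ∉ B p)) with hC
  have hmd := mem_dim D (∏ i : T, (i : ℕ)) hm0' (by rw [hm1]; exact hD) C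
  have hset : (univ.filter (fun a : Fin r → Fin D => res D (∏ i : T, (i : ℕ)) a ∈ C)) =
      univ.filter (Del B D T) := by
    apply filter_congr
    intro a _
    rw [hC, mem_filter]
    have hkey : ∀ p ∈ T, (fun i => (((res D (∏ i : T, (i : ℕ)) a i).val : ℕ) : ZMod p)) = res D p a := by
      intro p hp
      funext i
      unfold res
      rw [ZMod.val_natCast, ZMod.natCast_eq_natCast_iff]
      apply Nat.ModEq.of_dvd _ (Nat.mod_modEq _ _)
      rw [hm1]
      exact dvd_prod_of_mem (fun p => p) hp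
    constructor
    · rintro ⟨-, h⟩ p hp
      have := h p hp
      rw [hkey p hp] at this
      exact this
    · intro h
      refine ⟨mem_univ _, fun p hp => ?_⟩
      rw [hkey p hp]
      exact h p hp
  have hm1r : ((∏ i : T, (i : ℕ) : ℕ) : ℝ) = ((∏ p ∈ T, p : ℕ) : ℝ) := by rw [hm1]
  rw [hset, hm1r] at hmd
  have hmr : (0 : ℝ) < ((∏ p ∈ T, p : ℕ) : ℝ) := by exact_mod_cast hm0
  have hDr : (0 : ℝ) < D := by
    have : 0 < D := hm0.trans_le hD
    exact_mod_cast this
  set m : ℝ := ((∏ p ∈ T, p : ℕ) : ℝ) with hm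
  have hCb : (C.card : ℝ) = m ^ r * bet B T := by
    rw [hcard, hm, bet]
    push_cast
    rw [← prod_pow, ← prod_mul_distrib]
    refine prod_congr rfl fun p hp => ?_
    have hp0 : (0 : ℝ) < p := by exact_mod_cast (hT p hp).pos
    field_simp
  rw [hCb] at hmd
  unfold Pr
  constructor
  · rw [le_div_iff₀ (by positivity)]
    refine le_trans (le_of_eq ?_) hmd.1
    rw [mul_assoc, ← mul_pow, mul_comm (m ^ r), mul_assoc, ← mul_pow]
    congr 2
    field_simp
  · rw [div_le_iff₀ (by positivity)]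
    refine le_trans hmd.2 (le_of_eq ?_)
    rw [mul_assoc (bet B T), ← mul_pow, mul_comm (m ^ r), mul_assoc, ← mul_pow]
    congr 2
    field_simp

end Pool.Agent.R526.CT
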