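import Pool.Agent.R526.CT.Sec
import Pool.Agent.R526.TP.Thin

set_option autoImplicit false

/-! # One dyadic scale -/

namespace Pool.Agent.R526.CT

open Finset Filter Topology Pool.Agent.R526.TP

open scoped Classical

variable {r : ℕ}

theorem bet_low (B : (p : ℕ) → Finset (Fin r → ZMod p)) (T : Finset ℕ) (ρ : ℝ) (hρ : ρ ≤ 1)
    (hT : ∀ p ∈ T, p.Prime) (h : ∀ p ∈ T, ((B p).card : ℝ) ≤ ρ * (p : ℝ) ^ r) :
    (1 - ρ) ^ T.card ≤ bet B T := by
  unfold bet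
  rw [← prod_const]
  apply Finset.prod_le_prod
  · intro p _
    linarith
  · intro p hp
    have hp0 : (0 : ℝ) < p := by exact_mod_cast (hT p hp).pos
    have : ((B p).card : ℝ) / (p : ℝ) ^ r ≤ ρ := by
      rw [div_le_iff₀ (by positivity)]
      exact h p hp
    linarith

theorem bet_up (B : (p : ℕ) → Finset (Fin r → ZMod p)) (T : Finset ℕ) (ρ : ℝ)
    (hT : ∀ p ∈ T, p.Prime) (h : ∀ p ∈ T, ρ * (p : ℝ) ^ r ≤ ((B p).card : ℝ)) :
    bet B T ≤ (1 - ρ) ^ T.card := by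
  unfold bet
  rw [← prod_const]
  apply Finset.prod_le_prod
  · intro p hp
    haveI : NeZero p := ⟨(hT p hp).ne_zero⟩
    have h1 : ((B p).card : ℝ) ≤ (p : ℝ) ^ r := by
      have h2 := card_le_univ (B p)
      rw [Fintype.card_fun, ZMod.card, Fintype.card_fin] at h2
      exact_mod_cast h2
    have hp0 : (0 : ℝ) < p := by exact_mod_cast (hT p hp).pos
    rw [sub_nonneg, div_le_one (by positivity)]
    exact h1
  · intro p hp
    have hp0 : (0 : ℝ) < p := by exact_mod_cast (hT p hp).pos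
    have : ρ ≤ ((B p).card : ℝ) / (p : ℝ) ^ r := by
      rw [le_div_iff₀ (by positivity)]
      exact h p hp
    linarith

theorem bet_union (B : (p : ℕ) → Finset (Fin r → ZMod p)) (T T' : Finset ℕ) (h : Disjoint T T') :
    bet B (T ∪ T') = bet B T * bet B T' := prod_union h

theorem prod_bound (T : Finset ℕ) (N : ℕ) (h : ∀ p ∈ T, p ≤ N) : ∏ p ∈ T, p ≤ N ^ T.card := by
  rw [← prod_const]
  exact Finset.prod_le_prod' h

/-- no window of the scale is free of chosen primes -/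
def Bad (B : (p : ℕ) → Finset (Fin r → ZMod p)) (D : ℕ) (κ c η : ℝ) (k : ℕ) (a : Fin r → Fin D) : Prop :=
  ∀ n ∈ SS κ c (((2 : ℝ) ^ k) ^ (1 - η)) (2 ^ k), ¬ Del B D (TT n ⌊c * (Real.log n) ^ 2⌋₊) a

theorem pow_facts (q θ : ℝ) (r : ℕ) (hq0 : 0 ≤ q) (hθ0 : 0 ≤ θ) (hθ1 : θ ≤ 1)
    (hq : 10 * ((r : ℝ) + 1) * q ≤ θ) :
    (1 + q) ^ r ≤ (1 + θ) * ((1 - q) ^ r * (1 - q) ^ r) ∧ (1 + q) ^ r ≤ 2 ∧ 1 / 2 ≤ (1 - q) ^ r := by
  have hrq : (r : ℝ) * q ≤ θ / 10 := by nlinarith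
  have hq1 : q ≤ 1 / 10 := by
    have : 0 ≤ (r : ℝ) * q := by positivity
    linarith
  have h1 : (1 + q) ^ r ≤ 1 + 2 * (r * q) := by
    have h2 : (1 + q) ^ r ≤ Real.exp (r * q) := by
      rw [Real.exp_nat_mul]
      apply pow_le_pow_left₀ (by linarith)
      have := Real.add_one_le_exp q
      linarith
    refine h2.trans ?_
    have h3 := Real.exp_bound_div_one_sub_of_interval (x := (r : ℝ) * q) (by positivity) (by linarith)
    refine h3.trans ?_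
    rw [div_le_iff₀ (by linarith)]
    have : 0 ≤ (r : ℝ) * q := by positivity
    nlinarith
  have h2 : 1 - r * q ≤ (1 - q) ^ r := by
    have := one_add_mul_le_pow (show -2 ≤ -q by linarith) r
    have e1 : (1 + -q) = 1 - q := by ring
    rw [e1] at this
    linarith
  have hrq0 : 0 ≤ (r : ℝ) * q := by positivity
  refine ⟨?_, by linarith, by linarith⟩
  have h3 : (1 - r * q) * (1 - r * q) ≤ (1 - q) ^ r * (1 - q) ^ r :=
    mul_le_mul h2 h2 (by linarith) (by linarith)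
  have h4 : (1 + θ) * ((1 - r * q) * (1 - r * q)) ≤ (1 + θ) * ((1 - q) ^ r * (1 - q) ^ r) :=
    mul_le_mul_of_nonneg_left h3 (by linarith)
  refine h1.trans (le_trans ?_ h4)
  set s := (r : ℝ) * q with hs
  have h5 : (1 - s) * (1 - s) ≥ 1 - 2 * s := by nlinarith [sq_nonneg s]
  have h6 : (1 + θ) * (1 - 2 * s) ≤ (1 + θ) * ((1 - s) * (1 - s)) :=
    mul_le_mul_of_nonneg_left h5 (by linarith)
  refine le_trans ?_ h6
  nlinarith

theorem bad_prob (B : (p : ℕ) → Finset (Fin r → ZMod p)) (ρ : ℝ) (hρ0 : 0 < ρ) (hρ1 : ρ < 1) (p₀ : ℕ)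
    (hup : ∀ p : ℕ, p.Prime → p₀ ≤ p → ((B p).card : ℝ) ≤ ρ * (p : ℝ) ^ r)
    (κ c η : ℝ) (hκ : 0 < κ) (hc0 : 0 < c)
    (hc : c < 2 * Real.exp (-Real.eulerMascheroniConstant) * κ) (hη : 0 < η) (hη1 : η < 1)
    (hκη : κ * Real.log (1 / (1 - ρ)) ≤ 1 - 3 * η) :
    ∀ᶠ k : ℕ in atTop, ∀ D : ℕ, 0 < D → (4 * κ + 4 + 10 * ((r : ℝ) + 1)) * (k : ℝ) ^ 2 ≤ Real.log D →
      Pr D (Bad B D κ c η k) ≤ (1 / 2) ^ k + ((2 : ℝ) ^ (-η)) ^ k := by
  set L1 := Real.log (1 / (1 - ρ)) with hL1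
  have hL10 : 0 < L1 := Real.log_pos (by rw [lt_div_iff₀ (by linarith)]; linarith)
  have hexp : 1 - ρ = Real.exp (-L1) := by
    rw [hL1, one_div, Real.log_inv, neg_neg, Real.exp_log (by linarith)]
  have e1 : ∀ᶠ k : ℕ in atTop, (2 * (c * (k : ℝ) ^ 2) + 1) ≤ 1 / 4 * ((2 : ℝ) ^ k) ^ η := by
    have hr : (1 : ℝ) < (2 : ℝ) ^ η := Real.one_lt_rpow (by norm_num) hη
    have h1 := (tendsto_pow_const_div_const_pow_of_one_lt 2 hr).eventually_le_const
      (show (0 : ℝ) < 1 / (16 * (c + 1)) by positivity)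
    have h2 := (tendsto_pow_atTop_atTop_of_one_lt hr).eventually_ge_atTop 16
    filter_upwards [h1, h2] with k h1 h2
    rw [div_le_iff₀ (by positivity)] at h1
    have h3 : ((2 : ℝ) ^ k) ^ η = ((2 : ℝ) ^ η) ^ k := by
      rw [← Real.rpow_natCast, ← Real.rpow_natCast, ← Real.rpow_mul (by norm_num), ← Real.rpow_mul (by norm_num), mul_comm]
    rw [h3]
    set z := ((2 : ℝ) ^ η) ^ k with hz
    have h4 : (c + 1) * (k : ℝ) ^ 2 ≤ z / 16 := by
      rw [one_div, inv_mul_eq_div, le_div_iff₀ (by positivity)] at h1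
      linarith
    nlinarith [sq_nonneg (k : ℝ)]
  have e2 : ∀ᶠ k : ℕ in atTop, c * (Real.log ((2 : ℝ) ^ k)) ^ 2 ≤ (2 : ℝ) ^ k := by
    have hpow : Tendsto (fun k : ℕ => ((2 : ℝ) ^ k)) atTop atTop :=
      tendsto_pow_atTop_atTop_of_one_lt (by norm_num : (1 : ℝ) < 2)
    have h1 := (Real.isLittleO_pow_log_id_atTop (n := 2)).bound (show (0 : ℝ) < 1 / c by positivity)
    filter_upwards [hpow.eventually h1, hpow.eventually_ge_atTop 1] with k h2 h3
    rw [Real.norm_of_nonneg (pow_nonneg (Real.log_nonneg h3) 2), id,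
      Real.norm_of_nonneg (by linarith)] at h2
    have h4 : c * (Real.log ((2 : ℝ) ^ k)) ^ 2 ≤ c * (1 / c * (2 : ℝ) ^ k) :=
      mul_le_mul_of_nonneg_left h2 hc0.le
    refine h4.trans (le_of_eq ?_)
    field_simp
  have ht : Tendsto (fun k : ℕ => ((2 : ℝ) ^ k) ^ (1 - η) / 2) atTop atTop := by
    apply Tendsto.atTop_div_const (by norm_num)
    exact (tendsto_rpow_atTop (by linarith)).comp
      (tendsto_pow_atTop_atTop_of_one_lt (by norm_num : (1 : ℝ) < 2))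
  filter_upwards [windows κ c η hκ hc hη, e1, e2, ht.eventually_ge_atTop (p₀ : ℝ), eventually_ge_atTop 1]
    with k hk h1 h2 h3 hk1 D hD hDk
  set x : ℝ := (2 : ℝ) ^ k with hx
  have hx1 : 1 ≤ x := one_le_pow₀ (by norm_num)
  have hx0 : 0 < x := by linarith
  set y := x ^ (1 - η) with hy
  set S := SS κ c y (2 ^ k) with hS
  set V : ℕ := ⌊c * (Real.log x) ^ 2⌋₊ with hV
  have hkr : (1 : ℝ) ≤ k := by exact_mod_cast hk1
  have hk2 : (k : ℝ) ≤ (k : ℝ) ^ 2 := by nlinarith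
  have hlogx : Real.log x = k * Real.log 2 := by rw [hx, Real.log_pow]
  have hl2 : Real.log 2 < 0.7 := by
    have := Real.log_two_lt_d9
    linarith
  have hl20 : 0 < Real.log 2 := Real.log_pos (by norm_num)
  have hDr : (0 : ℝ) < D := by exact_mod_cast hD
  have hSx : ∀ n ∈ S, 1 ≤ n ∧ (n : ℝ) ≤ x ∧ n ≤ 2 ^ k ∧ p₀ ≤ n ∧
      ((TT n ⌊c * (Real.log n) ^ 2⌋₊).card : ℝ) ≤ κ * Real.log n := by
    intro n hn
    rw [hS] at hn
    unfold SS at hn
    rw [mem_filter, mem_Icc] at hn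
    refine ⟨hn.1.1, ?_, hn.1.2, ?_, hn.2.2⟩
    · have : (n : ℝ) ≤ ((2 ^ k : ℕ) : ℝ) := by exact_mod_cast hn.1.2
      push_cast at this
      exact this
    · have : (p₀ : ℝ) ≤ n := h3.trans hn.2.1.le
      exact_mod_cast this
  have hlogn : ∀ n ∈ S, 0 ≤ Real.log n ∧ Real.log n ≤ Real.log x := by
    intro n hn
    obtain ⟨a1, a2, -⟩ := hSx n hn
    have a3 : (1 : ℝ) ≤ n := by exact_mod_cast a1
    exact ⟨Real.log_nonneg a3, Real.log_le_log (by linarith) a2⟩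
  have hwV : ∀ n ∈ S, ⌊c * (Real.log n) ^ 2⌋₊ ≤ V := by
    intro n hn
    obtain ⟨a1, a2⟩ := hlogn n hn
    apply Nat.floor_le_floor
    gcongr
  have hVx : V ≤ 2 ^ k := by
    have h4 : (V : ℝ) ≤ ((2 ^ k : ℕ) : ℝ) := by
      push_cast
      exact (Nat.floor_le (by positivity)).trans h2
    exact_mod_cast h4
  have hTP : ∀ n, ∀ p ∈ TT n ⌊c * (Real.log n) ^ 2⌋₊, p.Prime := by
    intro n p hp
    unfold TT at hp
    exact (mem_filter.1 hp).2
  -- the moduli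
  have hmod : ∀ n ∈ S, ((∏ p ∈ TT n ⌊c * (Real.log n) ^ 2⌋₊, p : ℕ) : ℝ) ≤ Real.exp (2 * κ * (k : ℝ) ^ 2) := by
    intro n hn
    obtain ⟨b1, b2, b3, b4, b5⟩ := hSx n hn
    have h4 : ∏ p ∈ TT n ⌊c * (Real.log n) ^ 2⌋₊, p ≤ (2 ^ (k + 1)) ^ (TT n ⌊c * (Real.log n) ^ 2⌋₊).card := by
      apply prod_bound
      intro p hp
      unfold TT at hp
      rw [mem_filter, mem_Ioc] at hp
      have := hwV n hn
      have : 2 ^ (k + 1) = 2 ^ k + 2 ^ k := by ring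
      omega
    have h5 : ((∏ p ∈ TT n ⌊c * (Real.log n) ^ 2⌋₊, p : ℕ) : ℝ) ≤
        ((2 : ℝ) ^ (k + 1)) ^ (TT n ⌊c * (Real.log n) ^ 2⌋₊).card := by exact_mod_cast h4
    refine h5.trans ?_
    have h6 : ((2 : ℝ) ^ (k + 1)) ^ (TT n ⌊c * (Real.log n) ^ 2⌋₊).card =
        Real.exp (((TT n ⌊c * (Real.log n) ^ 2⌋₊).card : ℝ) * (((k : ℝ) + 1) * Real.log 2)) := by
      rw [Real.exp_nat_mul]
      congr 1
      rw [mul_comm, Real.exp_mul, Real.exp_log (by norm_num)]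
      have : (k : ℝ) + 1 = ((k + 1 : ℕ) : ℝ) := by push_cast; ring
      rw [this, Real.rpow_natCast]
    rw [h6]
    apply Real.exp_le_exp.2
    have h7 : ((TT n ⌊c * (Real.log n) ^ 2⌋₊).card : ℝ) ≤ κ * (k * Real.log 2) := by
      refine b5.trans ?_
      rw [← hlogx]
      exact mul_le_mul_of_nonneg_left (hlogn n hn).2 hκ.le
    calc ((TT n ⌊c * (Real.log n) ^ 2⌋₊).card : ℝ) * (((k : ℝ) + 1) * Real.log 2) ≤
        κ * (k * Real.log 2) * (((k : ℝ) + 1) * Real.log 2) :=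
          mul_le_mul_of_nonneg_right h7 (by positivity)
      _ = κ * (k * (k + 1)) * (Real.log 2 * Real.log 2) := by ring
      _ ≤ κ * (k * (k + 1)) * 1 := by
          apply mul_le_mul_of_nonneg_left _ (by positivity)
          nlinarith
      _ ≤ 2 * κ * (k : ℝ) ^ 2 := by nlinarith
  set q : ℝ := Real.exp (4 * κ * (k : ℝ) ^ 2) / D with hq
  have hq0 : 0 ≤ q := by positivity
  set θ : ℝ := (1 / 2) ^ k with hθ
  have hθ0 : 0 ≤ θ := by positivity
  have hθ1 : θ ≤ 1 := pow_le_one₀ (by norm_num) (by norm_num)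
  have hqθ : 10 * ((r : ℝ) + 1) * q ≤ θ := by
    rw [hq, ← mul_div_assoc, div_le_iff₀ hDr]
    have h4 : Real.exp ((4 * κ + 4 + 10 * ((r : ℝ) + 1)) * (k : ℝ) ^ 2) ≤ D := by
      calc _ ≤ Real.exp (Real.log D) := Real.exp_le_exp.2 hDk
        _ = D := Real.exp_log hDr
    have h5 : (10 * ((r : ℝ) + 1)) * Real.exp (4 * κ * (k : ℝ) ^ 2) ≤
        θ * Real.exp ((4 * κ + 4 + 10 * ((r : ℝ) + 1)) * (k : ℝ) ^ 2) := by
      have h6 : θ = Real.exp (-(k * Real.log 2)) := by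
        rw [hθ, Real.exp_neg, mul_comm, Real.exp_mul, Real.exp_log (by norm_num), Real.rpow_natCast,
          one_div, inv_pow]
      have h7 : 10 * ((r : ℝ) + 1) ≤ Real.exp (10 * ((r : ℝ) + 1)) := by
        have := Real.add_one_le_exp (10 * ((r : ℝ) + 1))
        linarith
      rw [h6, ← Real.exp_add]
      calc (10 * ((r : ℝ) + 1)) * Real.exp (4 * κ * (k : ℝ) ^ 2) ≤
          Real.exp (10 * ((r : ℝ) + 1)) * Real.exp (4 * κ * (k : ℝ) ^ 2) :=
            mul_le_mul_of_nonneg_right h7 (Real.exp_pos _).le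
        _ = Real.exp (10 * ((r : ℝ) + 1) + 4 * κ * (k : ℝ) ^ 2) := (Real.exp_add _ _).symm
        _ ≤ _ := by
            apply Real.exp_le_exp.2
            have h8 : (k : ℝ) * Real.log 2 ≤ k := by nlinarith
            have h9 : (1 : ℝ) ≤ (k : ℝ) ^ 2 := by linarith
            have h10 : 10 * ((r : ℝ) + 1) ≤ 10 * ((r : ℝ) + 1) * (k : ℝ) ^ 2 :=
              le_mul_of_one_le_right (by positivity) h9
            nlinarith
    calc 10 * ((r : ℝ) + 1) * Real.exp (4 * κ * (k : ℝ) ^ 2) ≤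
        θ * Real.exp ((4 * κ + 4 + 10 * ((r : ℝ) + 1)) * (k : ℝ) ^ 2) := h5
      _ ≤ θ * D := mul_le_mul_of_nonneg_left h4 hθ0
  obtain ⟨pf1, pf2, pf3⟩ := pow_facts q θ r hq0 hθ0 hθ1 hqθ
  have hq1 : q ≤ 1 := by nlinarith
  have hprodq : ∀ z : ℝ, 0 ≤ z → z ≤ Real.exp (4 * κ * (k : ℝ) ^ 2) → z / D ≤ q := by
    intro z _ hz
    exact div_le_div_of_nonneg_right hz hDr.le
  have hexp2 : Real.exp (2 * κ * (k : ℝ) ^ 2) ≤ Real.exp (4 * κ * (k : ℝ) ^ 2) := by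
    apply Real.exp_le_exp.2
    have : 0 ≤ κ * (k : ℝ) ^ 2 := by positivity
    linarith
  have hleD : ∀ z : ℕ, (z : ℝ) ≤ Real.exp (4 * κ * (k : ℝ) ^ 2) → z ≤ D := by
    intro z hz
    have h4 := hprodq z (Nat.cast_nonneg z) hz
    have h5 : (z : ℝ) / D ≤ 1 := h4.trans hq1
    rw [div_le_one hDr] at h5
    exact_mod_cast h5
  set A : ℕ → (Fin r → Fin D) → Prop := fun n => Del B D (TT n ⌊c * (Real.log n) ^ 2⌋₊) with hA
  have hPlow : ∀ n ∈ S, bet B (TT n ⌊c * (Real.log n) ^ 2⌋₊) * (1 - q) ^ r ≤ Pr D (A n) := by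
    intro n hn
    have h4 := hmod n hn
    have h5 := (del_bounds B (TT n ⌊c * (Real.log n) ^ 2⌋₊) (hTP n) D (hleD _ (h4.trans hexp2))).1
    refine le_trans ?_ h5
    apply mul_le_mul_of_nonneg_left _ (bet_nonneg B _ (hTP n))
    apply pow_le_pow_left₀ (by linarith)
    have := hprodq _ (Nat.cast_nonneg _) (h4.trans hexp2)
    linarith
  have hind : ∀ n ∈ S, ∀ m ∈ S, n + V < m →
      Pr D (fun a => A n a ∧ A m a) ≤ (1 + θ) * (Pr D (A n) * Pr D (A m)) := by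
    intro n hn m hm hnm
    have hdisj : Disjoint (TT n ⌊c * (Real.log n) ^ 2⌋₊) (TT m ⌊c * (Real.log m) ^ 2⌋₊) := by
      rw [disjoint_left]
      intro p hp hp'
      unfold TT at hp hp'
      rw [mem_filter, mem_Ioc] at hp hp'
      have := hwV n hn
      omega
    have hU : ∀ p ∈ TT n ⌊c * (Real.log n) ^ 2⌋₊ ∪ TT m ⌊c * (Real.log m) ^ 2⌋₊, p.Prime := by
      intro p hp
      rcases mem_union.1 hp with h | h
      · exact hTP n p h
      · exact hTP m p h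
    have hpu : ((∏ p ∈ TT n ⌊c * (Real.log n) ^ 2⌋₊ ∪ TT m ⌊c * (Real.log m) ^ 2⌋₊, p : ℕ) : ℝ) ≤
        Real.exp (4 * κ * (k : ℝ) ^ 2) := by
      rw [prod_union hdisj]
      push_cast
      have h4 := hmod n hn
      have h5 := hmod m hm
      push_cast at h4 h5
      calc _ ≤ Real.exp (2 * κ * (k : ℝ) ^ 2) * Real.exp (2 * κ * (k : ℝ) ^ 2) := by
            apply mul_le_mul h4 h5 (prod_nonneg fun i _ => Nat.cast_nonneg i) (Real.exp_pos _).le
        _ = Real.exp (4 * κ * (k : ℝ) ^ 2) := by rw [← Real.exp_add]; congr 1; ring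
    have h4 : Pr D (fun a => A n a ∧ A m a) ≤
        Pr D (Del B D (TT n ⌊c * (Real.log n) ^ 2⌋₊ ∪ TT m ⌊c * (Real.log m) ^ 2⌋₊)) := by
      apply Pr_mono
      rintro a ⟨ha, hb⟩ p hp
      rcases mem_union.1 hp with h | h
      · exact ha p h
      · exact hb p h
    have h5 := (del_bounds B _ hU D (hleD _ hpu)).2
    rw [bet_union B _ _ hdisj] at h5
    refine h4.trans (h5.trans ?_)
    have hb1 := bet_nonneg B (TT n ⌊c * (Real.log n) ^ 2⌋₊) (hTP n)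
    have hb2 := bet_nonneg B (TT m ⌊c * (Real.log m) ^ 2⌋₊) (hTP m)
    have h6 : (1 + ((∏ p ∈ TT n ⌊c * (Real.log n) ^ 2⌋₊ ∪ TT m ⌊c * (Real.log m) ^ 2⌋₊, p : ℕ) : ℝ) / D) ^ r ≤
        (1 + q) ^ r := by
      apply pow_le_pow_left₀ (by positivity)
      have := hprodq _ (Nat.cast_nonneg _) hpu
      linarith
    have h7 : 0 ≤ (1 - q) ^ r := by linarith
    calc _ ≤ bet B (TT n ⌊c * (Real.log n) ^ 2⌋₊) * bet B (TT m ⌊c * (Real.log m) ^ 2⌋₊) *
          ((1 + θ) * ((1 - q) ^ r * (1 - q) ^ r)) := by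
          apply mul_le_mul_of_nonneg_left (h6.trans pf1) (mul_nonneg hb1 hb2)
      _ = (1 + θ) * ((bet B (TT n ⌊c * (Real.log n) ^ 2⌋₊) * (1 - q) ^ r) *
          (bet B (TT m ⌊c * (Real.log m) ^ 2⌋₊) * (1 - q) ^ r)) := by ring
      _ ≤ (1 + θ) * (Pr D (A n) * Pr D (A m)) := by
          apply mul_le_mul_of_nonneg_left _ (by linarith)
          exact mul_le_mul (hPlow n hn) (hPlow m hm) (mul_nonneg hb2 h7) (Pr_nonneg D _)
  have hsec := second_fin D hD A S V θ hθ0 hind (∑ n ∈ S, Pr D (A n)) rfl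
  set E := ∑ n ∈ S, Pr D (A n) with hE
  have hEn : ∀ n ∈ S, x ^ (-(1 - 3 * η)) / 2 ≤ Pr D (A n) := by
    intro n hn
    refine le_trans ?_ (hPlow n hn)
    obtain ⟨b1, b2, b3, b4, b5⟩ := hSx n hn
    have c1 := bet_low B (TT n ⌊c * (Real.log n) ^ 2⌋₊) ρ hρ1.le (hTP n) (by
      intro p hp
      apply hup p (hTP n p hp)
      unfold TT at hp
      rw [mem_filter, mem_Ioc] at hp
      omega)
    obtain ⟨a1, a2⟩ := hlogn n hn
    have c2 : x ^ (-(1 - 3 * η)) ≤ (1 - ρ) ^ (TT n ⌊c * (Real.log n) ^ 2⌋₊).card := by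
      rw [hexp, ← Real.exp_nat_mul, Real.rpow_def_of_pos hx0]
      apply Real.exp_le_exp.2
      have hlx : 0 ≤ Real.log x := a1.trans a2
      have b3 : ((TT n ⌊c * (Real.log n) ^ 2⌋₊).card : ℝ) * L1 ≤ κ * Real.log x * L1 := by
        apply mul_le_mul_of_nonneg_right _ hL10.le
        exact b5.trans (mul_le_mul_of_nonneg_left a2 hκ.le)
      have b4 : κ * Real.log x * L1 ≤ (1 - 3 * η) * Real.log x := by
        have := mul_le_mul_of_nonneg_right hκη hlx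
        linarith
      linarith
    calc x ^ (-(1 - 3 * η)) / 2 = x ^ (-(1 - 3 * η)) * (1 / 2) := by ring
      _ ≤ bet B (TT n ⌊c * (Real.log n) ^ 2⌋₊) * (1 - q) ^ r := by
          apply mul_le_mul (c2.trans c1) pf3 (by norm_num) (bet_nonneg B _ (hTP n))
  have hElow : x ^ (2 * η) / 4 ≤ E := by
    have b1 : (S.card : ℝ) * (x ^ (-(1 - 3 * η)) / 2) ≤ E := by
      rw [hE, ← nsmul_eq_mul, ← sum_const]
      exact sum_le_sum hEn
    refine le_trans ?_ b1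
    calc x ^ (2 * η) / 4 = y / 2 * (x ^ (-(1 - 3 * η)) / 2) := by
          rw [hy]
          have : x ^ (2 * η) = x ^ (1 - η) * x ^ (-(1 - 3 * η)) := by
            rw [← Real.rpow_add hx0]
            congr 1
            ring
          rw [this]
          ring
      _ ≤ S.card * (x ^ (-(1 - 3 * η)) / 2) := by
          apply mul_le_mul_of_nonneg_right hk
          positivity
  have hE0 : 0 < E := lt_of_lt_of_le (by positivity) hElow
  have hPB : Pr D (Bad B D κ c η k) * E ^ 2 ≤ θ * E ^ 2 + (2 * V + 1) * E := hsec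
  have hb1 : Pr D (Bad B D κ c η k) * E ≤ θ * E + (2 * V + 1) := by
    have b2 : (Pr D (Bad B D κ c η k) * E) * E ≤ (θ * E + (2 * V + 1)) * E := by nlinarith
    exact le_of_mul_le_mul_right b2 hE0
  have hVle : (V : ℝ) ≤ c * (k : ℝ) ^ 2 := by
    have b1 : (V : ℝ) ≤ c * (Real.log x) ^ 2 := Nat.floor_le (by positivity)
    refine b1.trans ?_
    rw [hlogx]
    have b3 : (k : ℝ) * Real.log 2 ≤ k := by nlinarith
    have b4 : 0 ≤ (k : ℝ) * Real.log 2 := by positivity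
    gcongr
  have hpow : ((2 : ℝ) ^ (-η)) ^ k = x ^ (-η) := by
    rw [hx, ← Real.rpow_natCast, ← Real.rpow_natCast, ← Real.rpow_mul (by norm_num), ← Real.rpow_mul (by norm_num), mul_comm]
  rw [hpow]
  have hx2 : x ^ (2 * η) = x ^ η * x ^ η := by rw [← Real.rpow_add hx0]; congr 1; ring
  have hxn : x ^ (-η) * x ^ η = 1 := by rw [← Real.rpow_add hx0]; simp
  have hxp : 0 < x ^ η := by positivity
  have hfin : 2 * (V : ℝ) + 1 ≤ x ^ (-η) * E := by
    calc 2 * (V : ℝ) + 1 ≤ 2 * (c * (k : ℝ) ^ 2) + 1 := by linarith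
      _ ≤ 1 / 4 * x ^ η := h1
      _ = x ^ (-η) * (x ^ (2 * η) / 4) := by
          rw [hx2]
          have : x ^ (-η) * (x ^ η * x ^ η / 4) = (x ^ (-η) * x ^ η) * x ^ η / 4 := by ring
          rw [this, hxn]
          ring
      _ ≤ x ^ (-η) * E := mul_le_mul_of_nonneg_left hElow (by positivity)
  have : Pr D (Bad B D κ c η k) * E ≤ (θ + x ^ (-η)) * E := by nlinarith
  exact le_of_mul_le_mul_right this hE0

/-- chosen primes in a dyadic interval -/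
theorem no_prob (B : (p : ℕ) → Finset (Fin r → ZMod p)) (ρ₀ : ℝ) (hρ0 : 0 < ρ₀) (hρ1 : ρ₀ ≤ 1) (p₀ : ℕ)
    (hlo : ∀ p : ℕ, p.Prime → p₀ ≤ p → ρ₀ * (p : ℝ) ^ r ≤ ((B p).card : ℝ)) (κ : ℝ) (hκ : 0 < κ) :
    ∀ᶠ k : ℕ in atTop, ∀ D : ℕ, 0 < D → (4 * κ + 4 + 10 * ((r : ℝ) + 1)) * (k : ℝ) ^ 2 ≤ Real.log D →
      Pr D (Del B D (TT (2 ^ (k + 1)) (2 ^ (k + 1)))) ≤ 2 * (1 - ρ₀) ^ k := by
  filter_upwards [many_dyadic, eventually_ge_atTop (max 1 p₀)] with k hk hk1 D hD hDk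
  have hk0 : 1 ≤ k := (le_max_left _ _).trans hk1
  have hkp : p₀ ≤ k := (le_max_right _ _).trans hk1
  obtain ⟨T, hT, hTc⟩ := exists_subset_card_eq hk
  have hTp : ∀ p ∈ T, p.Prime ∧ p₀ ≤ p ∧ p ≤ 2 ^ (k + 2) := by
    intro p hp
    have h1 := hT hp
    unfold TT at h1
    rw [mem_filter, mem_Ioc] at h1
    refine ⟨h1.2, ?_, ?_⟩
    · have : k + 1 < 2 ^ (k + 1) := Nat.lt_two_pow_self
      omega
    · have : 2 ^ (k + 2) = 2 ^ (k + 1) + 2 ^ (k + 1) := by ring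
      omega
  have hDr : (0 : ℝ) < D := by exact_mod_cast hD
  have hkr : (1 : ℝ) ≤ k := by exact_mod_cast hk0
  have hl2 : Real.log 2 < 0.7 := by
    have := Real.log_two_lt_d9
    linarith
  have hl20 : 0 < Real.log 2 := Real.log_pos (by norm_num)
  have hprod : ((∏ p ∈ T, p : ℕ) : ℝ) ≤ Real.exp (3 * (k : ℝ) ^ 2) := by
    have h4 : ∏ p ∈ T, p ≤ (2 ^ (k + 2)) ^ k := by
      have := prod_bound T (2 ^ (k + 2)) (fun p hp => (hTp p hp).2.2)
      rw [hTc] at this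
      exact this
    have h5 : ((∏ p ∈ T, p : ℕ) : ℝ) ≤ ((2 : ℝ) ^ (k + 2)) ^ k := by exact_mod_cast h4
    refine h5.trans ?_
    have h6 : ((2 : ℝ) ^ (k + 2)) ^ k = Real.exp ((k : ℝ) * (((k : ℝ) + 2) * Real.log 2)) := by
      rw [Real.exp_nat_mul]
      congr 1
      rw [mul_comm, Real.exp_mul, Real.exp_log (by norm_num)]
      have : (k : ℝ) + 2 = ((k + 2 : ℕ) : ℝ) := by push_cast; ring
      rw [this, Real.rpow_natCast]
    rw [h6]
    apply Real.exp_le_exp.2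
    have h7 : ((k : ℝ) + 2) * Real.log 2 ≤ 3 * k := by nlinarith
    nlinarith
  set q : ℝ := Real.exp (3 * (k : ℝ) ^ 2) / D with hq
  have hq0 : 0 ≤ q := by positivity
  have hqθ : 10 * ((r : ℝ) + 1) * q ≤ 1 := by
    rw [hq, ← mul_div_assoc, div_le_iff₀ hDr, one_mul]
    have h4 : Real.exp ((4 * κ + 4 + 10 * ((r : ℝ) + 1)) * (k : ℝ) ^ 2) ≤ D := by
      calc _ ≤ Real.exp (Real.log D) := Real.exp_le_exp.2 hDk
        _ = D := Real.exp_log hDr
    refine le_trans ?_ h4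
    have h7 : 10 * ((r : ℝ) + 1) ≤ Real.exp (10 * ((r : ℝ) + 1)) := by
      have := Real.add_one_le_exp (10 * ((r : ℝ) + 1))
      linarith
    calc (10 * ((r : ℝ) + 1)) * Real.exp (3 * (k : ℝ) ^ 2) ≤
          Real.exp (10 * ((r : ℝ) + 1)) * Real.exp (3 * (k : ℝ) ^ 2) :=
            mul_le_mul_of_nonneg_right h7 (Real.exp_pos _).le
        _ = Real.exp (10 * ((r : ℝ) + 1) + 3 * (k : ℝ) ^ 2) := (Real.exp_add _ _).symm
        _ ≤ _ := by
            apply Real.exp_le_exp.2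
            have h9 : (1 : ℝ) ≤ (k : ℝ) ^ 2 := by nlinarith
            have h10 : 10 * ((r : ℝ) + 1) ≤ 10 * ((r : ℝ) + 1) * (k : ℝ) ^ 2 :=
              le_mul_of_one_le_right (by positivity) h9
            have h11 : 0 ≤ κ * (k : ℝ) ^ 2 := by positivity
            nlinarith
  obtain ⟨-, pf2, -⟩ := pow_facts q 1 r hq0 (by norm_num) le_rfl hqθ
  have hmq : ((∏ p ∈ T, p : ℕ) : ℝ) / D ≤ q := div_le_div_of_nonneg_right hprod hDr.le
  have hmD : ∏ p ∈ T, p ≤ D := by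
    have hq1 : q ≤ 1 := by nlinarith
    have h5 := hmq.trans hq1
    rw [div_le_one hDr] at h5
    exact_mod_cast h5
  have h1 : Pr D (Del B D (TT (2 ^ (k + 1)) (2 ^ (k + 1)))) ≤ Pr D (Del B D T) :=
    Pr_mono D _ _ fun a ha p hp => ha p (hT hp)
  have h2 := (del_bounds B T (fun p hp => (hTp p hp).1) D hmD).2
  have h3 := bet_up B T ρ₀ (fun p hp => (hTp p hp).1) (fun p hp => hlo p (hTp p hp).1 (hTp p hp).2.1)
  rw [hTc] at h3
  have h4 : (1 + ((∏ p ∈ T, p : ℕ) : ℝ) / D) ^ r ≤ 2 := by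
    refine le_trans ?_ pf2
    apply pow_le_pow_left₀ (by positivity)
    linarith
  refine h1.trans (h2.trans ?_)
  have h5 : 0 ≤ (1 - ρ₀) ^ k := pow_nonneg (by linarith) k
  calc bet B T * (1 + ((∏ p ∈ T, p : ℕ) : ℝ) / D) ^ r ≤ (1 - ρ₀) ^ k * 2 :=
        mul_le_mul h3 h4 (by positivity) h5
    _ = 2 * (1 - ρ₀) ^ k := by ring

end Pool.Agent.R526.CT
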