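import Pool.Agent.R526.CT.Dy
import Pool.Agent.R526.TP.Fin
import Pool.Agent.R526.TP.Num

set_option autoImplicit false

/-! # Gaps between primes chosen by congruence conditions on a random vector -/

namespace Pool.Agent.R526.CT

open Finset Filter Topology Pool.Agent.R526.TP

open scoped Classical

/-- a long gap at one scale -/
theorem gap_at (Q : ℕ → Prop) (c η Bc : ℝ) (hc : 0 < c) (hη : 0 < η) (hη2 : η < 1 / 2)
    (hB : Bc ≤ c * (1 - 2 * η) ^ 2) (k : ℕ) (hk : 4 / η ≤ k) (n : ℕ)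
    (hn3 : ((2 : ℝ) ^ k) ^ (1 - η) / 2 < n) (hn2 : n ≤ 2 ^ k)
    (hn4 : ∀ p, n < p → p ≤ n + ⌊c * (Real.log n) ^ 2⌋₊ → ¬ Q p)
    (p₀ : ℕ) (hp₀ : Q p₀) (hp0n : p₀ ≤ n) (q : ℕ) (hq1 : Q q) (hq2 : 2 ^ (k + 1) < q)
    (hq3 : q ≤ 2 ^ (k + 2)) (x : ℝ) (hx1 : (2 : ℝ) ^ (k + 2) ≤ x) (hx2 : x < (2 : ℝ) ^ (k + 3)) :
    ∃ a b : ℕ, Q a ∧ Q b ∧ a < b ∧ (b : ℝ) ≤ x ∧
      (∀ p, Q p → ¬ (a < p ∧ p < b)) ∧ Bc * (Real.log x) ^ 2 ≤ (b : ℝ) - a := by
  have hx0 : 0 < x := lt_of_lt_of_le (by positivity) hx1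
  have hx1' : 1 ≤ x := le_trans (one_le_pow₀ (by norm_num)) hx1
  have hnq : n < q := by
    have : 2 ^ k < 2 ^ (k + 1) := Nat.pow_lt_pow_right (by norm_num) (by omega)
    omega
  set a := Nat.findGreatest Q n with ha
  have haQ : Q a := Nat.findGreatest_spec hp0n hp₀
  have han : a ≤ n := Nat.findGreatest_le n
  have hex : ∃ b, n < b ∧ Q b := ⟨q, hnq, hq1⟩
  set b := Nat.find hex with hb
  obtain ⟨hb1, hb2⟩ := Nat.find_spec hex
  rw [← hb] at hb1 hb2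
  have hbq : b ≤ q := Nat.find_min' hex ⟨hnq, hq1⟩
  have hbw : n + ⌊c * (Real.log n) ^ 2⌋₊ < b := by
    by_contra hcon
    exact hn4 b hb1 (not_lt.1 hcon) hb2
  refine ⟨a, b, haQ, hb2, by omega, ?_, ?_, ?_⟩
  · have h1 : (b : ℝ) ≤ ((2 ^ (k + 2) : ℕ) : ℝ) := by exact_mod_cast hbq.trans hq3
    push_cast at h1
    exact h1.trans hx1
  · rintro p hp ⟨h1, h2⟩
    rcases Nat.lt_or_ge n p with h | h
    · exact absurd h2 (not_lt.2 (Nat.find_min' hex ⟨h, hp⟩))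
    · exact absurd h1 (not_lt.2 (Nat.le_findGreatest h hp))
  · have h1 : (n : ℝ) + ⌊c * (Real.log n) ^ 2⌋₊ + 1 ≤ b := by exact_mod_cast hbw
    have h2 : c * (Real.log n) ^ 2 < ⌊c * (Real.log n) ^ 2⌋₊ + 1 := Nat.lt_floor_add_one _
    have h3 : (a : ℝ) ≤ n := by exact_mod_cast han
    have h4 : c * (Real.log n) ^ 2 ≤ (b : ℝ) - a := by linarith
    refine le_trans ?_ h4
    have hl2 : 0 < Real.log 2 := Real.log_pos (by norm_num)
    have hkr := hk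
    rw [div_le_iff₀ hη] at hkr
    have h5 : (1 - 2 * η) * ((k + 3) * Real.log 2) ≤ Real.log n := by
      have h6 : Real.log (((2 : ℝ) ^ k) ^ (1 - η) / 2) ≤ Real.log n :=
        Real.log_le_log (by positivity) hn3.le
      rw [Real.log_div (by positivity) (by norm_num), Real.log_rpow (by positivity), Real.log_pow] at h6
      refine le_trans ?_ h6
      have : (1 - 2 * η) * (k + 3) ≤ (1 - η) * k - 1 := by nlinarith
      have h7 := mul_le_mul_of_nonneg_right this hl2.le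
      linarith
    have h6 : Real.log x ≤ (k + 3) * Real.log 2 := by
      have h7 : Real.log x ≤ Real.log ((2 : ℝ) ^ (k + 3)) := Real.log_le_log hx0 hx2.le
      rw [Real.log_pow] at h7
      push_cast at h7
      linarith
    have hlx : 0 ≤ Real.log x := Real.log_nonneg hx1'
    have h7 : (1 - 2 * η) * Real.log x ≤ Real.log n := by
      refine le_trans ?_ h5
      exact mul_le_mul_of_nonneg_left h6 (by linarith)
    have h8 : ((1 - 2 * η) * Real.log x) ^ 2 ≤ (Real.log n) ^ 2 :=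
      pow_le_pow_left₀ (mul_nonneg (by linarith) hlx) h7 2
    calc Bc * (Real.log x) ^ 2 ≤ c * (1 - 2 * η) ^ 2 * (Real.log x) ^ 2 :=
          mul_le_mul_of_nonneg_right hB (by positivity)
      _ = c * ((1 - 2 * η) * Real.log x) ^ 2 := by ring
      _ ≤ c * (Real.log n) ^ 2 := mul_le_mul_of_nonneg_left h8 hc.le

variable {r : ℕ}

/-- all the scales between `x₀` and `exp (c √(log D))` have long gaps -/
def Good (B : (p : ℕ) → Finset (Fin r → ZMod p)) (D : ℕ) (C c x₀ : ℝ) (a : Fin r → Fin D) : Prop :=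
  ∀ x : ℝ, x₀ ≤ x → x ≤ Real.exp (c * √(Real.log D)) → ∃ q q' : ℕ,
    (q.Prime ∧ res D q a ∈ B q) ∧ (q'.Prime ∧ res D q' a ∈ B q') ∧ q < q' ∧ (q' : ℝ) ≤ x ∧
    (∀ p : ℕ, (p.Prime ∧ res D p a ∈ B p) → ¬ (q < p ∧ p < q')) ∧
    C * (Real.log x) ^ 2 ≤ (q' : ℝ) - q

theorem congr_gaps (B : (p : ℕ) → Finset (Fin r → ZMod p)) (ρ₀ ρ : ℝ) (hρ₀ : 0 < ρ₀) (hρ₀1 : ρ₀ ≤ 1)
    (hρ0 : 0 < ρ) (hρ1 : ρ < 1) (p₀ : ℕ)
    (hlo : ∀ p : ℕ, p.Prime → p₀ ≤ p → ρ₀ * (p : ℝ) ^ r ≤ ((B p).card : ℝ))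
    (hup : ∀ p : ℕ, p.Prime → p₀ ≤ p → ((B p).card : ℝ) ≤ ρ * (p : ℝ) ^ r) (ε : ℝ) (hε : 0 < ε) :
    ∃ c : ℝ, 0 < c ∧ ∃ x₀ : ℝ, ∀ D : ℕ, 0 < D →
      Pr D (fun a => ¬ Good B D (2 * Real.exp (-Real.eulerMascheroniConstant) /
        Real.log (1 / (1 - ρ)) - ε) c x₀ a) ≤ ε := by
  set L1 := Real.log (1 / (1 - ρ)) with hL1
  have hL10 : 0 < L1 := Real.log_pos (by rw [lt_div_iff₀ (by linarith)]; linarith)
  set G : ℝ := 2 * Real.exp (-Real.eulerMascheroniConstant) with hG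
  have hG0 : 0 < G := by positivity
  set C₀ : ℝ := G / L1 with hC₀
  have hC₀0 : 0 < C₀ := by positivity
  set η : ℝ := min (1 / 10) (ε / (8 * C₀)) with hη
  have hη0 : 0 < η := lt_min (by norm_num) (by positivity)
  have hη1 : η ≤ 1 / 10 := min_le_left _ _
  have hη2 : 8 * η * C₀ ≤ ε := by
    have : η ≤ ε / (8 * C₀) := min_le_right _ _
    rw [le_div_iff₀ (by positivity)] at this
    linarith
  set κ : ℝ := (1 - 3 * η) / L1 with hκ
  have hκ0 : 0 < κ := div_pos (by linarith) hL10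
  set cw : ℝ := C₀ * (1 - 4 * η) with hcw
  have hcw0 : 0 < cw := mul_pos hC₀0 (by linarith)
  have hcκ : cw < G * κ := by
    have h1 : G * κ = C₀ * (1 - 3 * η) := by rw [hκ, hC₀]; ring
    rw [h1, hcw]
    exact mul_lt_mul_of_pos_left (by linarith) hC₀0
  have hκη : κ * L1 ≤ 1 - 3 * η := by
    rw [hκ, div_mul_cancel₀ _ hL10.ne']
  have hnum : C₀ - ε ≤ cw * (1 - 2 * η) ^ 2 := by
    have h2 : (1 - 2 * η) ^ 2 ≥ 1 - 4 * η := by nlinarith [sq_nonneg η]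
    have h3 : cw * (1 - 4 * η) ≤ cw * (1 - 2 * η) ^ 2 := mul_le_mul_of_nonneg_left h2 hcw0.le
    refine le_trans ?_ h3
    rw [hcw]
    nlinarith [mul_nonneg hC₀0.le (sq_nonneg η)]
  obtain ⟨ka, hka⟩ := eventually_atTop.1 (bad_prob B ρ hρ0 hρ1 p₀ hup κ cw η hκ0 hcw0 hcκ hη0
    (by linarith) hκη)
  obtain ⟨kb, hkb⟩ := eventually_atTop.1 (no_prob B ρ₀ hρ₀ hρ₀1 p₀ hlo κ hκ0)
  -- summability
  set u : ℕ → ℝ := fun k => (1 / 2) ^ k + ((2 : ℝ) ^ (-η)) ^ k + 2 * (1 - ρ₀) ^ k with hu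
  have hus : Summable u := by
    refine Summable.add (Summable.add ?_ ?_) (Summable.mul_left _ ?_)
    · exact summable_geometric_of_lt_one (by norm_num) (by norm_num)
    · exact summable_geometric_of_lt_one (by positivity)
        (Real.rpow_lt_one_of_one_lt_of_neg (by norm_num) (by linarith))
    · exact summable_geometric_of_lt_one (by linarith) (by linarith)
  obtain ⟨s, hs⟩ := summable_iff_vanishing_norm.1 hus ε hε
  obtain ⟨kc, hkc⟩ := exists_nat_ge (4 / η)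
  set k₀ : ℕ := ka + kb + kc + s.sup id + 1 with hk₀
  have ht : Tendsto (fun k : ℕ => ((2 : ℝ) ^ k) ^ (1 - η) / 2) atTop atTop := by
    apply Tendsto.atTop_div_const (by norm_num)
    exact (tendsto_rpow_atTop (by linarith)).comp
      (tendsto_pow_atTop_atTop_of_one_lt (by norm_num : (1 : ℝ) < 2))
  obtain ⟨k₁, hk₁⟩ := eventually_atTop.1 (ht.eventually_ge_atTop ((2 : ℝ) ^ (k₀ + 2)))
  set C₁ : ℝ := 4 * κ + 4 + 10 * ((r : ℝ) + 1) with hC₁
  have hC₁1 : 1 ≤ C₁ := by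
    have : (0 : ℝ) ≤ r := Nat.cast_nonneg r
    rw [hC₁]
    linarith
  have hC₁0 : 0 < C₁ := by linarith
  have hl2 : 0 < Real.log 2 := Real.log_pos (by norm_num)
  refine ⟨Real.log 2 / √C₁, by positivity, (2 : ℝ) ^ (k₁ + k₀ + 3), fun D hD => ?_⟩
  set K : Finset ℕ := (Icc k₀ D).filter (fun k => C₁ * (k : ℝ) ^ 2 ≤ Real.log D) with hK
  have hunion : Pr D (fun a => ¬ Good B D (C₀ - ε) (Real.log 2 / √C₁) ((2 : ℝ) ^ (k₁ + k₀ + 3)) a) ≤
      ∑ k ∈ K, Pr D (fun a => Bad B D κ cw η k a ∨ Del B D (TT (2 ^ (k + 1)) (2 ^ (k + 1))) a) := by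
    apply Pr_bUnion
    intro a ha
    by_contra hcon
    push Not at hcon
    apply ha
    intro x hx1 hx2
    have hx1' : 1 ≤ x := le_trans (one_le_pow₀ (by norm_num)) hx1
    have hx0 : 0 < x := by linarith
    obtain ⟨m, hm1, hm2⟩ : ∃ m : ℕ, (2 : ℝ) ^ m ≤ x ∧ x < (2 : ℝ) ^ (m + 1) :=
      exists_nat_pow_near hx1' (by norm_num)
    have hm3 : k₁ + k₀ + 3 ≤ m := by
      have h1 : (2 : ℝ) ^ (k₁ + k₀ + 3) < 2 ^ (m + 1) := lt_of_le_of_lt hx1 hm2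
      have h2 := (pow_lt_pow_iff_right₀ (by norm_num : (1 : ℝ) < 2)).1 h1
      omega
    obtain ⟨k, hk⟩ : ∃ k, m = k + 2 := ⟨m - 2, by omega⟩
    subst hk
    have hkk0 : k₀ ≤ k := by omega
    have hkk1 : k₁ ≤ k := by omega
    have hDr : (1 : ℝ) ≤ D := by exact_mod_cast hD
    have hlD : 0 ≤ Real.log D := Real.log_nonneg hDr
    have hCk : C₁ * (k : ℝ) ^ 2 ≤ Real.log D := by
      have h1 : (k : ℝ) * Real.log 2 ≤ Real.log x := by
        have h2 : Real.log ((2 : ℝ) ^ (k + 2)) ≤ Real.log x := Real.log_le_log (by positivity) hm1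
        rw [Real.log_pow] at h2
        push_cast at h2
        linarith
      have h2 : Real.log x ≤ Real.log 2 / √C₁ * √(Real.log D) := by
        have := Real.log_le_log hx0 hx2
        rwa [Real.log_exp] at this
      have h3 : (k : ℝ) * Real.log 2 ≤ (√(Real.log D) / √C₁) * Real.log 2 := by
        calc (k : ℝ) * Real.log 2 ≤ Real.log 2 / √C₁ * √(Real.log D) := h1.trans h2
          _ = (√(Real.log D) / √C₁) * Real.log 2 := by ring
      have h4 : (k : ℝ) ≤ √(Real.log D) / √C₁ := le_of_mul_le_mul_right h3 hl2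
      have h5 : (k : ℝ) ^ 2 ≤ (√(Real.log D) / √C₁) ^ 2 := pow_le_pow_left₀ (Nat.cast_nonneg k) h4 2
      rw [div_pow, Real.sq_sqrt hlD, Real.sq_sqrt hC₁0.le, le_div_iff₀ hC₁0] at h5
      linarith
    have hkpos : 1 ≤ k := by omega
    have hkr : (1 : ℝ) ≤ k := by exact_mod_cast hkpos
    have hmemK : ∀ j, k₀ ≤ j → j ≤ k → j ∈ K := by
      intro j hj1 hj2
      rw [hK, mem_filter, mem_Icc]
      have hjr : (j : ℝ) ≤ k := by exact_mod_cast hj2
      refine ⟨⟨hj1, ?_⟩, ?_⟩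
      · have h1 : (j : ℝ) ≤ D := by
          have h2 : (k : ℝ) ≤ (k : ℝ) ^ 2 := by nlinarith
          have h3 : (k : ℝ) ^ 2 ≤ C₁ * (k : ℝ) ^ 2 := le_mul_of_one_le_left (by positivity) hC₁1
          have h4 : Real.log D ≤ D := by
            have := Real.log_le_sub_one_of_pos (show (0 : ℝ) < D by linarith)
            linarith
          linarith
        exact_mod_cast h1
      · refine le_trans ?_ hCk
        apply mul_le_mul_of_nonneg_left _ hC₁0.le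
        exact pow_le_pow_left₀ (Nat.cast_nonneg j) hjr 2
    obtain ⟨g1, g2⟩ := hcon k (hmemK k hkk0 le_rfl)
    obtain ⟨-, g3⟩ := hcon k₀ (hmemK k₀ le_rfl hkk0)
    unfold Bad at g1
    push Not at g1
    obtain ⟨n, hn, hdel⟩ := g1
    unfold SS at hn
    rw [mem_filter, mem_Icc] at hn
    unfold Del at g2 g3
    push Not at g2 g3
    obtain ⟨q, hq1, hq2⟩ := g2
    obtain ⟨q₀, hq₀1, hq₀2⟩ := g3
    unfold TT at hq1 hq₀1
    rw [mem_filter, mem_Ioc] at hq1 hq₀1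
    have hqn : q₀ ≤ n := by
      have h1 : q₀ ≤ 2 ^ (k₀ + 2) := by
        have : 2 ^ (k₀ + 2) = 2 ^ (k₀ + 1) + 2 ^ (k₀ + 1) := by ring
        omega
      have h2 : (q₀ : ℝ) ≤ (2 : ℝ) ^ (k₀ + 2) := by exact_mod_cast h1
      have h3 := hk₁ k hkk1
      have h4 : (q₀ : ℝ) ≤ n := by linarith [hn.2.1]
      exact_mod_cast h4
    refine gap_at (fun p => p.Prime ∧ res D p a ∈ B p) cw η (C₀ - ε) hcw0 hη0 (by linarith) hnum k ?_ n
      hn.2.1 hn.1.2 ?_ q₀ ⟨hq₀1.2, hq₀2⟩ hqn q ⟨hq1.2, hq2⟩ hq1.1.1 ?_ x hm1 hm2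
    · refine hkc.trans ?_
      exact_mod_cast (by omega : kc ≤ k)
    · rintro p hp1 hp2 ⟨hp3, hp4⟩
      refine hdel p ?_ hp4
      unfold TT
      rw [mem_filter, mem_Ioc]
      exact ⟨⟨hp1, hp2⟩, hp3⟩
    · have : 2 ^ (k + 2) = 2 ^ (k + 1) + 2 ^ (k + 1) := by ring
      omega
  refine hunion.trans ?_
  have hterm : ∀ k ∈ K, Pr D (fun a => Bad B D κ cw η k a ∨
      Del B D (TT (2 ^ (k + 1)) (2 ^ (k + 1))) a) ≤ u k := by
    intro k hk
    rw [hK, mem_filter, mem_Icc] at hk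
    obtain ⟨⟨h1, -⟩, h2⟩ := hk
    have h3 := hka k (by omega) D hD h2
    have h4 := hkb k (by omega) D hD h2
    have h5 := Pr_or D (Bad B D κ cw η k) (Del B D (TT (2 ^ (k + 1)) (2 ^ (k + 1))))
      (fun a => Bad B D κ cw η k a ∨ Del B D (TT (2 ^ (k + 1)) (2 ^ (k + 1))) a) (fun a h => h)
    simp only [hu]
    linarith
  refine (sum_le_sum hterm).trans ?_
  have hdisj : Disjoint K s := by
    rw [disjoint_left]
    intro k hk hks
    rw [hK, mem_filter, mem_Icc] at hk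
    have h1 : k ≤ s.sup id := le_sup (f := id) hks
    omega
  have h1 := hs K hdisj
  exact (le_abs_self _).trans h1.le

end Pool.Agent.R526.CT
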