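import Pool.Agent.R526.CT.Count

set_option autoImplicit false

/-! # The second moment method for random integer vectors -/

namespace Pool.Agent.R526.CT

open Finset

open scoped Classical

variable {r : ℕ}

theorem Pr_eq (D : ℕ) (s : (Fin r → Fin D) → Prop) :
    Pr D s = (∑ a : Fin r → Fin D, (if s a then (1 : ℝ) else 0)) / (D : ℝ) ^ r := by
  unfold Pr
  rw [sum_boole]

theorem Pr_nonneg (D : ℕ) (s : (Fin r → Fin D) → Prop) : 0 ≤ Pr D s := by
  unfold Pr
  positivity

theorem Pr_mono (D : ℕ) (s t : (Fin r → Fin D) → Prop) (h : ∀ a, s a → t a) : Pr D s ≤ Pr D t := by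
  unfold Pr
  apply div_le_div_of_nonneg_right _ (by positivity)
  have h1 : (univ.filter s) ⊆ (univ.filter t) := by
    intro a ha
    rw [mem_filter] at ha ⊢
    exact ⟨ha.1, h a ha.2⟩
  exact_mod_cast card_le_card h1

theorem Pr_bUnion (D : ℕ) (K : Finset ℕ) (s : ℕ → (Fin r → Fin D) → Prop)
    (u : (Fin r → Fin D) → Prop) (hu : ∀ a, u a → ∃ k ∈ K, s k a) :
    Pr D u ≤ ∑ k ∈ K, Pr D (s k) := by
  unfold Pr
  rw [← sum_div]
  apply div_le_div_of_nonneg_right _ (by positivity)
  rw [← Nat.cast_sum, Nat.cast_le]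
  refine (card_le_card (t := K.biUnion (fun k => univ.filter (s k))) ?_).trans card_biUnion_le
  intro a ha
  rw [mem_filter] at ha
  obtain ⟨k, hk, h⟩ := hu a ha.2
  rw [mem_biUnion]
  exact ⟨k, hk, by rw [mem_filter]; exact ⟨mem_univ _, h⟩⟩

theorem Pr_or (D : ℕ) (s t u : (Fin r → Fin D) → Prop) (hu : ∀ a, u a → s a ∨ t a) :
    Pr D u ≤ Pr D s + Pr D t := by
  unfold Pr
  rw [← add_div]
  apply div_le_div_of_nonneg_right _ (by positivity)
  rw [← Nat.cast_add, Nat.cast_le]
  refine (card_le_card (t := univ.filter s ∪ univ.filter t) ?_).trans (card_union_le _ _)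
  intro a ha
  rw [mem_filter] at ha
  rw [mem_union, mem_filter, mem_filter]
  rcases hu a ha.2 with h | h
  · exact Or.inl ⟨mem_univ _, h⟩
  · exact Or.inr ⟨mem_univ _, h⟩

theorem second_fin (D : ℕ) (hD : 0 < D) (A : ℕ → (Fin r → Fin D) → Prop) (S : Finset ℕ) (V : ℕ)
    (θ : ℝ) (hθ : 0 ≤ θ)
    (hind : ∀ n ∈ S, ∀ m ∈ S, n + V < m →
      Pr D (fun a => A n a ∧ A m a) ≤ (1 + θ) * (Pr D (A n) * Pr D (A m)))
    (E : ℝ) (hE : E = ∑ n ∈ S, Pr D (A n)) :
    Pr D (fun a => ∀ n ∈ S, ¬ A n a) * E ^ 2 ≤ θ * E ^ 2 + (2 * V + 1) * E := by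
  have hN : (0 : ℝ) < (D : ℝ) ^ r := by
    have : (0 : ℝ) < D := by exact_mod_cast hD
    positivity
  set N : ℝ := (D : ℝ) ^ r with hNd
  set f : ℕ → (Fin r → Fin D) → ℝ := fun n a => if A n a then 1 else 0 with hf
  have hE0 : 0 ≤ E := by
    rw [hE]
    exact sum_nonneg fun n _ => Pr_nonneg D _
  have h1 : ∀ n, ∑ a, f n a = N * Pr D (A n) := by
    intro n
    rw [Pr_eq, ← hNd]
    field_simp
    rfl
  have h2 : ∀ n m, ∑ a, f n a * f m a = N * Pr D (fun a => A n a ∧ A m a) := by
    intro n m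
    rw [Pr_eq, ← hNd]
    field_simp
    refine sum_congr rfl fun a _ => ?_
    simp only [hf]
    by_cases h3 : A n a <;> by_cases h4 : A m a <;> simp [h3, h4]
  have hexp : ∑ a, (∑ n ∈ S, f n a - E) ^ 2 =
      N * (∑ n ∈ S, ∑ m ∈ S, Pr D (fun a => A n a ∧ A m a) - E ^ 2) := by
    have h3 : ∀ a, (∑ n ∈ S, f n a - E) ^ 2 =
        ∑ n ∈ S, ∑ m ∈ S, f n a * f m a - 2 * E * ∑ n ∈ S, f n a + E ^ 2 := by
      intro a
      rw [← sum_mul_sum]
      ring
    rw [sum_congr rfl fun a _ => h3 a, sum_add_distrib, sum_sub_distrib, ← mul_sum, sum_comm]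
    have h4 : ∑ n ∈ S, ∑ a, ∑ m ∈ S, f n a * f m a =
        N * ∑ n ∈ S, ∑ m ∈ S, Pr D (fun a => A n a ∧ A m a) := by
      rw [mul_sum]
      refine sum_congr rfl fun n _ => ?_
      rw [sum_comm, mul_sum]
      exact sum_congr rfl fun m _ => h2 n m
    have h5 : ∑ a, ∑ n ∈ S, f n a = N * E := by
      rw [sum_comm, hE, mul_sum]
      exact sum_congr rfl fun n _ => h1 n
    rw [h4, h5, sum_const, card_univ, Fintype.card_fun, Fintype.card_fin, Fintype.card_fin, nsmul_eq_mul]
    push_cast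
    rw [← hNd]
    ring
  have hlow : N * (Pr D (fun a => ∀ n ∈ S, ¬ A n a) * E ^ 2) ≤ ∑ a, (∑ n ∈ S, f n a - E) ^ 2 := by
    have h3 : N * (Pr D (fun a => ∀ n ∈ S, ¬ A n a) * E ^ 2) =
        ∑ a : Fin r → Fin D, (if ∀ n ∈ S, ¬ A n a then E ^ 2 else 0) := by
      rw [Pr_eq, ← hNd]
      have : ∀ a : Fin r → Fin D, (if ∀ n ∈ S, ¬ A n a then E ^ 2 else 0) =
          (if ∀ n ∈ S, ¬ A n a then (1 : ℝ) else 0) * E ^ 2 := by
        intro a
        split_ifs <;> ring
      rw [sum_congr rfl fun a _ => this a, ← sum_mul]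
      field_simp
      ring
    rw [h3]
    apply sum_le_sum
    intro a _
    split_ifs with h
    · have h4 : ∑ n ∈ S, f n a = 0 := by
        apply sum_eq_zero
        intro n hn
        simp only [hf]
        rw [if_neg (h n hn)]
      rw [h4]
      apply le_of_eq
      ring
    · exact sq_nonneg _
  have hup : ∑ n ∈ S, ∑ m ∈ S, Pr D (fun a => A n a ∧ A m a) ≤ (1 + θ) * E ^ 2 + (2 * V + 1) * E := by
    have h3 : ∀ n ∈ S, ∑ m ∈ S, Pr D (fun a => A n a ∧ A m a) ≤
        (1 + θ) * (Pr D (A n) * E) + (2 * V + 1) * Pr D (A n) := by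
      intro n hn
      rw [← sum_filter_add_sum_filter_not S (fun m => n + V < m ∨ m + V < n)]
      apply add_le_add
      · rw [hE, mul_sum, mul_sum]
        refine le_trans (sum_le_sum (g := fun m => (1 + θ) * (Pr D (A n) * Pr D (A m))) ?_) ?_
        · intro m hm
          rw [mem_filter] at hm
          rcases hm.2 with h | h
          · exact hind n hn m hm.1 h
          · have h4 := hind m hm.1 n hn h
            have h5 : (fun a => A n a ∧ A m a) = (fun a => A m a ∧ A n a) := by
              funext a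
              exact propext and_comm
            rw [h5, mul_comm (Pr D (A n))]
            exact h4
        · apply sum_le_sum_of_subset_of_nonneg (filter_subset _ _)
          intro m _ _
          exact mul_nonneg (by linarith) (mul_nonneg (Pr_nonneg D _) (Pr_nonneg D _))
      · have h4 : S.filter (fun m => ¬ (n + V < m ∨ m + V < n)) ⊆ Icc (n - V) (n + V) := by
          intro m hm
          rw [mem_filter] at hm
          rw [mem_Icc]
          have := hm.2
          push Not at this
          omega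
        have h5 : (Icc (n - V) (n + V)).card ≤ 2 * V + 1 := by
          rw [Nat.card_Icc]
          omega
        calc ∑ m ∈ S.filter (fun m => ¬ (n + V < m ∨ m + V < n)), Pr D (fun a => A n a ∧ A m a)
            ≤ ∑ m ∈ S.filter (fun m => ¬ (n + V < m ∨ m + V < n)), Pr D (A n) := by
              apply sum_le_sum
              intro m _
              exact Pr_mono D _ _ fun a ha => ha.1
          _ = ((S.filter (fun m => ¬ (n + V < m ∨ m + V < n))).card : ℝ) * Pr D (A n) := by
              rw [sum_const, nsmul_eq_mul]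
          _ ≤ (2 * V + 1) * Pr D (A n) := by
              apply mul_le_mul_of_nonneg_right _ (Pr_nonneg D _)
              exact_mod_cast (card_le_card h4).trans h5
    refine (sum_le_sum h3).trans ?_
    rw [sum_add_distrib, ← mul_sum, ← sum_mul, ← mul_sum, ← hE]
    apply le_of_eq
    ring
  have h3 := hlow.trans hexp.le
  have h4 := le_of_mul_le_mul_left h3 hN
  linarith

end Pool.Agent.R526.CT
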